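import Pool.Agent.H82.AS.Targets

/-!
Module SQS: the sum over large squarefull numbers.
-/

set_option autoImplicit false

namespace Pool.Agent.H34.AS

open Pool.Agent.H38.RB Pool.Agent.H38.PS Pool.Agent.H82.AS Finset

theorem ex_nonneg (n : ℕ) : 0 ≤ ex n := by
  unfold ex
  positivity

theorem pf_SQS (hSQT : T_SQT) : T_SQS := by
  obtain ⟨C, hC, h⟩ := hSQT (1 / 48) (by norm_num)
  set r : ℝ := (2 : ℝ) ^ (-(5 / 48) : ℝ) with hr
  have hr0 : 0 < r := Real.rpow_pos_of_pos (by norm_num) _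
  have hr1 : r < 1 := Real.rpow_lt_one_of_one_lt_of_neg (by norm_num) (by norm_num)
  refine ⟨C * (1 - r)⁻¹, mul_pos hC (inv_pos.2 (sub_pos.2 hr1)), ?_⟩
  intro Y F hY hF
  have hY0 : 0 < Y := by linarith
  have hex : ∀ D : ℕ, ∃ j : ℕ, (D : ℝ) ≤ 2 ^ j * Y := by
    intro D
    obtain ⟨j, hj⟩ := pow_unbounded_of_one_lt (D : ℝ) (by norm_num : (1 : ℝ) < 2)
    refine ⟨j, hj.le.trans ?_⟩
    exact le_mul_of_one_le_right (by positivity) hY
  classical
  set g : ℕ → ℕ := fun D => Nat.find (hex D) with hg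
  have hg1 : ∀ D : ℕ, (D : ℝ) ≤ 2 ^ (g D) * Y := fun D => Nat.find_spec (hex D)
  have hg2 : ∀ D ∈ F, 2 ^ (g D) * Y / 2 < (D : ℝ) := by
    intro D hD
    rcases Nat.eq_zero_or_pos (g D) with h0 | h0
    · rw [h0, pow_zero, one_mul]
      have := (hF D hD).2.2
      linarith
    · have h1 : ¬ ((D : ℝ) ≤ 2 ^ (g D - 1) * Y) := Nat.find_min (hex D) (Nat.sub_lt h0 one_pos)
      have h2 : (2 : ℝ) ^ (g D) = 2 ^ (g D - 1) * 2 := by
        rw [← pow_succ, Nat.sub_add_cancel h0]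
      rw [h2]
      push Not at h1
      linarith
  set t : ℕ → ℝ := fun D => (D : ℝ) ^ (1 / 24 : ℝ) * ex D ^ (2 / 3 : ℝ) / D with ht
  set J : ℕ := F.sup g + 1 with hJ
  have hmaps : ∀ D ∈ F, g D ∈ range J := by
    intro D hD
    rw [mem_range, hJ]
    exact Nat.lt_succ_of_le (le_sup (f := g) hD)
  have hsum := sum_fiberwise_of_maps_to hmaps t
  have hblock : ∀ j, ∑ D ∈ F.filter (fun D => g D = j), t D ≤
      C * Y ^ (-(1 / 12) : ℝ) * r ^ j := by
    intro j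
    set W : ℝ := 2 ^ j * Y with hW
    have hW1 : 1 ≤ W := by
      rw [hW]
      have : (1 : ℝ) ≤ 2 ^ j := one_le_pow₀ (by norm_num)
      nlinarith
    have hW0 : 0 < W := by linarith
    have h1 := (h W (F.filter (fun D => g D = j)) hW1 (by
      intro D hD
      rw [mem_filter] at hD
      refine ⟨(hF D hD.1).1, (hF D hD.1).2.1, ?_⟩
      rw [hW, ← hD.2]
      exact hg1 D)).2 (by
      intro D hD
      rw [mem_filter] at hD
      rw [hW, ← hD.2]
      exact hg2 D hD.1)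
    have h2 : ∑ D ∈ F.filter (fun D => g D = j), t D ≤
        W ^ (1 / 24 : ℝ) * ∑ D ∈ F.filter (fun D => g D = j), ex D ^ (2 / 3 : ℝ) / D := by
      rw [mul_sum]
      refine sum_le_sum fun D hD => ?_
      rw [mem_filter] at hD
      simp only [ht]
      rw [mul_div_assoc]
      refine mul_le_mul_of_nonneg_right ?_
        (div_nonneg (Real.rpow_nonneg (ex_nonneg D) _) (Nat.cast_nonneg D))
      refine Real.rpow_le_rpow (Nat.cast_nonneg D) ?_ (by norm_num)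
      rw [hW, ← hD.2]
      exact hg1 D
    have h3 : W ^ (1 / 24 : ℝ) * (C * W ^ (-(1 / 6) + 1 / 48 : ℝ)) = C * W ^ (-(5 / 48) : ℝ) := by
      have h4 : W ^ (-(5 / 48) : ℝ) = W ^ (1 / 24 : ℝ) * W ^ (-(1 / 6) + 1 / 48 : ℝ) := by
        rw [← Real.rpow_add hW0]
        norm_num
      rw [h4]
      ring
    have h5 : W ^ (-(5 / 48) : ℝ) ≤ r ^ j * Y ^ (-(1 / 12) : ℝ) := by
      rw [hW, Real.mul_rpow (by positivity) hY0.le]
      have h6 : ((2 : ℝ) ^ j) ^ (-(5 / 48) : ℝ) = r ^ j := by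
        rw [hr, ← Real.rpow_natCast, ← Real.rpow_natCast, ← Real.rpow_mul (by norm_num),
          ← Real.rpow_mul (by norm_num), mul_comm]
      rw [h6]
      exact mul_le_mul_of_nonneg_left (Real.rpow_le_rpow_of_exponent_le hY (by norm_num))
        (pow_nonneg hr0.le j)
    calc ∑ D ∈ F.filter (fun D => g D = j), t D
        ≤ W ^ (1 / 24 : ℝ) * (C * W ^ (-(1 / 6) + 1 / 48 : ℝ)) :=
          h2.trans (mul_le_mul_of_nonneg_left h1 (Real.rpow_nonneg hW0.le _))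
      _ = C * W ^ (-(5 / 48) : ℝ) := h3
      _ ≤ C * (r ^ j * Y ^ (-(1 / 12) : ℝ)) := mul_le_mul_of_nonneg_left h5 hC.le
      _ = C * Y ^ (-(1 / 12) : ℝ) * r ^ j := by ring
  change ∑ D ∈ F, t D ≤ _
  rw [← hsum]
  calc ∑ j ∈ range J, ∑ D ∈ F.filter (fun D => g D = j), t D
      ≤ ∑ j ∈ range J, C * Y ^ (-(1 / 12) : ℝ) * r ^ j := sum_le_sum fun j _ => hblock j
    _ = C * Y ^ (-(1 / 12) : ℝ) * ∑ j ∈ range J, r ^ j := by rw [mul_sum]
    _ ≤ C * Y ^ (-(1 / 12) : ℝ) * (1 - r)⁻¹ := by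
        refine mul_le_mul_of_nonneg_left ?_ (mul_nonneg hC.le (Real.rpow_nonneg hY0.le _))
        rw [geom_sum_eq hr1.ne, ← neg_div_neg_eq, neg_sub, neg_sub, div_eq_mul_inv]
        have h7 : 0 ≤ (1 - r)⁻¹ := inv_nonneg.2 (sub_nonneg.2 hr1.le)
        have h8 : 1 - r ^ J ≤ 1 := by
          have := pow_nonneg hr0.le J
          linarith
        exact mul_le_of_le_one_left h7 h8
    _ = C * (1 - r)⁻¹ * Y ^ (-(1 / 12) : ℝ) := by ring

end Pool.Agent.H34.AS
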